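import Pool.Agent.U866.OM.Stm

/-! Project OM, package INV (helper61): inverse and determinant of the metric of a Euclidean graph. -/

set_option autoImplicit false

namespace Pool.Agent.U61.OM

open Pool.Agent.H498R3.GB Pool.Agent.U866.OM
open scoped BigOperators Matrix

theorem W2_pos {m : ℕ} (v : E m → ℝ) (x : E m) : 0 < W2 v x := by
  unfold W2
  have : 0 ≤ ∑ i, p v x i ^ 2 := Finset.sum_nonneg fun i _ => sq_nonneg _
  linarith

/-- **INV** -/
theorem t_INV : S_INV := by
  intro m v x
  have hW' : W2 v x ≠ 0 := (W2_pos v x).ne'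
  have hsum : ∑ k, p v x k * p v x k = W2 v x - 1 := by
    unfold W2
    simp only [← sq]
    ring
  constructor
  · have hmul : euc v x * (Matrix.of fun i j => (1 : Matrix (Fin m) (Fin m) ℝ) i j -
        p v x i * p v x j / W2 v x) = 1 := by
      ext i j
      rw [Matrix.mul_apply]
      have hk : ∀ k, euc v x i k * (Matrix.of fun i j => (1 : Matrix (Fin m) (Fin m) ℝ) i j -
          p v x i * p v x j / W2 v x) k j =
          (1 : Matrix (Fin m) (Fin m) ℝ) i k * (1 : Matrix (Fin m) (Fin m) ℝ) k j
          - (1 : Matrix (Fin m) (Fin m) ℝ) i k * (p v x k * p v x j / W2 v x)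
          + (p v x i * p v x k) * (1 : Matrix (Fin m) (Fin m) ℝ) k j
          - (p v x i * p v x j / W2 v x) * (p v x k * p v x k) := by
        intro k
        simp only [euc, Matrix.of_apply, p]
        ring
      rw [Finset.sum_congr rfl fun k _ => hk k, Finset.sum_sub_distrib, Finset.sum_add_distrib,
        Finset.sum_sub_distrib, ← Finset.mul_sum, hsum]
      simp only [Matrix.one_apply, ite_mul, one_mul, zero_mul, mul_ite, mul_one, mul_zero,
        Finset.sum_ite_eq, Finset.sum_ite_eq', Finset.mem_univ, if_true]
      field_simp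
      ring
    intro i j
    rw [ginv, Matrix.inv_eq_right_inv hmul, Matrix.of_apply]
  · have h : euc v x = 1 + Matrix.replicateCol Unit (p v x) * Matrix.replicateRow Unit (p v x) := by
      ext i j
      simp [euc, p, Matrix.mul_apply]
    rw [h, Matrix.det_one_add_replicateCol_mul_replicateRow]
    unfold W2
    simp only [dotProduct, sq]

end Pool.Agent.U61.OM
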